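import Pool.Agent.Helper96.SE.Stmts

set_option autoImplicit false

/-! # CYC : a cycle of used edges contains all vertices -/

namespace Pool.Agent.Helper96.SE

open Pool.Agent.Helper52.Grid

/-- neighbours along a used edge -/
def cyc_A (hU vU : ℕ → ℕ → Bool) (p q : Pt) : Prop :=
  (q = (p.1 + 1, p.2) ∧ hU p.1 p.2 = true) ∨ (p = (q.1 + 1, q.2) ∧ hU q.1 q.2 = true) ∨
    (q = (p.1, p.2 + 1) ∧ vU p.1 p.2 = true) ∨ (p = (q.1, q.2 + 1) ∧ vU q.1 q.2 = true)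

theorem cyc_symm {hU vU : ℕ → ℕ → Bool} {p q : Pt} (h : cyc_A hU vU p q) : cyc_A hU vU q p := by
  unfold cyc_A at h ⊢
  tauto

theorem cyc_norm {hU vU : ℕ → ℕ → Bool} {x y : ℕ} {q : Pt} (h : cyc_A hU vU (x + 1, y + 1) q) :
    (q = (x + 2, y + 1) ∧ hU (x + 1) (y + 1) = true) ∨ (q = (x, y + 1) ∧ hU x (y + 1) = true) ∨
      (q = (x + 1, y + 2) ∧ vU (x + 1) (y + 1) = true) ∨ (q = (x + 1, y) ∧ vU (x + 1) y = true) := by
  obtain ⟨a, b⟩ := q
  unfold cyc_A at h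
  simp only [Prod.mk.injEq] at h ⊢
  rcases h with ⟨⟨h1, h2⟩, h3⟩ | ⟨⟨h1, h2⟩, h3⟩ | ⟨⟨h1, h2⟩, h3⟩ | ⟨⟨h1, h2⟩, h3⟩
  · exact Or.inl ⟨⟨h1, h2⟩, h3⟩
  · obtain rfl : x = a := by omega
    subst h2
    exact Or.inr (Or.inl ⟨⟨rfl, rfl⟩, h3⟩)
  · exact Or.inr (Or.inr (Or.inl ⟨⟨h1, h2⟩, h3⟩))
  · obtain rfl : y = b := by omega
    subst h1
    exact Or.inr (Or.inr (Or.inr ⟨⟨rfl, rfl⟩, h3⟩))

theorem cyc_three {h v : ℕ → ℕ → ℕ} {hU vU : ℕ → ℕ → Bool} (U : Use h v hU vU) {p q₁ q₂ q₃ : Pt}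
    (hp : 1 ≤ p.1 ∧ 1 ≤ p.2 ∧ Vert h v p) (h1 : cyc_A hU vU p q₁) (h2 : cyc_A hU vU p q₂)
    (h3 : cyc_A hU vU p q₃) (n12 : q₁ ≠ q₂) (n13 : q₁ ≠ q₃) (n23 : q₂ ≠ q₃) : False := by
  obtain ⟨x, y, rfl⟩ : ∃ x y, p = (x + 1, y + 1) := by
    refine ⟨p.1 - 1, p.2 - 1, Prod.ext ?_ ?_⟩
    · have := hp.1; simp only; omega
    · have := hp.2.1; simp only; omega
  have hd := U.deg x y hp.2.2
  replace h1 := cyc_norm h1
  replace h2 := cyc_norm h2
  replace h3 := cyc_norm h3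
  rcases h1 with ⟨g1, e1⟩ | ⟨g1, e1⟩ | ⟨g1, e1⟩ | ⟨g1, e1⟩ <;>
  rcases h2 with ⟨g2, e2⟩ | ⟨g2, e2⟩ | ⟨g2, e2⟩ | ⟨g2, e2⟩ <;>
  rcases h3 with ⟨g3, e3⟩ | ⟨g3, e3⟩ | ⟨g3, e3⟩ | ⟨g3, e3⟩ <;>
  first
  | exact n12 (g1.trans g2.symm)
  | exact n13 (g1.trans g3.symm)
  | exact n23 (g2.trans g3.symm)
  | (rw [e1, e2, e3] at hd; simp only [Bool.toNat_true] at hd; omega)

theorem st_CYC : ST_CYC := by
  intro h v hU vU L U hL hnd hpt hcyc b hb
  have hadj : ∀ (i : ℕ) (hi : i < L.length),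
      cyc_A hU vU L[i] (L[(i + 1) % L.length]'(Nat.mod_lt _ (by omega))) := hcyc
  have key : ∀ p q : Pt, p ∈ L → cyc_A hU vU p q → q ∈ L := by
    intro p q hpL hpq
    by_contra hq
    obtain ⟨i, hi, rfl⟩ := List.getElem_of_mem hpL
    have h1 := hadj i hi
    have hj : (i + (L.length - 1)) % L.length < L.length := Nat.mod_lt _ (by omega)
    have h2 := hadj _ hj
    have hji : ((i + (L.length - 1)) % L.length + 1) % L.length = i := by
      rw [Nat.mod_add_mod]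
      have h3 : i + (L.length - 1) + 1 = i + L.length := by omega
      rw [h3, Nat.add_mod_right, Nat.mod_eq_of_lt hi]
    simp only [hji] at h2
    have hk : (i + 1) % L.length < L.length := Nat.mod_lt _ (by omega)
    refine cyc_three U (hpt _ hpL) h1 (cyc_symm h2) hpq ?_ ?_ ?_
    · intro he
      have h4 := (List.Nodup.getElem_inj_iff hnd).1 he
      rcases Nat.lt_or_ge (i + 1) L.length with h5 | h5
      · rw [Nat.mod_eq_of_lt h5] at h4
        rcases Nat.eq_zero_or_pos i with h6 | h6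
        · subst h6
          rw [Nat.zero_add, Nat.mod_eq_of_lt (by omega)] at h4
          omega
        · have h7 : i + (L.length - 1) = (i - 1) + L.length := by omega
          rw [h7, Nat.add_mod_right, Nat.mod_eq_of_lt (by omega)] at h4
          omega
      · have h6 : i = L.length - 1 := by omega
        have h7 : i + 1 = L.length := by omega
        have h8 : i + (L.length - 1) = (i - 1) + L.length := by omega
        rw [h7, Nat.mod_self, h8, Nat.add_mod_right, Nat.mod_eq_of_lt (by omega)] at h4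
        omega
    · intro he
      exact hq (he ▸ List.getElem_mem hk)
    · intro he
      exact hq (he ▸ List.getElem_mem hj)
  have h0 : L[0] ∈ L := List.getElem_mem _
  refine U.cut (fun p => p ∈ L) ?_ ?_ _ _ (hpt _ h0).2.2 hb h0
  · intro x y hxy
    exact ⟨fun hm => key _ _ hm (Or.inl ⟨rfl, hxy⟩),
      fun hm => key _ _ hm (Or.inr (Or.inl ⟨rfl, hxy⟩))⟩
  · intro x y hxy
    exact ⟨fun hm => key _ _ hm (Or.inr (Or.inr (Or.inl ⟨rfl, hxy⟩))),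
      fun hm => key _ _ hm (Or.inr (Or.inr (Or.inr ⟨rfl, hxy⟩)))⟩

end Pool.Agent.Helper96.SE
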