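import Pool.Agent.Helper96.SE.Stmts
import Pool.Agent.Helper68.LP.TourEq

set_option autoImplicit false

/-! # GAP : the lengths of the tours if the lattice graph has no tour -/

namespace Pool.Agent.Helper96.SE

open Pool.Agent.Helper31.BC (dst tourLen Placement Pair Ineq Refutes)
open Pool.Agent.Helper52.Grid
open Pool.Agent.Helper68.LP

theorem gap_tl {n : ℕ} (P : Fin n → ℤ × ℤ) (σ : Equiv.Perm (Fin n)) :
    tourLen P σ = tlen P σ := rfl

/-- tours of the perturbed points are long, or there is a cheap unit tour -/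
theorem gap_main {h v : ℕ → ℕ → ℕ} {N C B n : ℕ} (hh : ∀ x y, h x y ≤ C) (hv : ∀ x y, v x y ≤ C)
    (hn : 2 ≤ n) (p : Fin n → ℕ × ℕ) (hp : Function.Injective p)
    (hN : ∀ i, (p i).1 ≤ N ∧ (p i).2 ≤ N) (σ : Equiv.Perm (Fin n))
    (hσ : tlen (fun i => pert (dbl h) (dbl v) (scale n N C B : ℕ) (p i)) σ <
      ((n * scale n N C B + (2 * B + 2) : ℕ) : ℝ)) :
    UnitTour p σ ∧ ∑ i, ncost h v (p (σ i)) (p (σ (finRotate n i))) ≤ B := by
  have hB : Pool.Agent.Helper68.LP.Box (dbl h) (dbl v) N (2 * C) := by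
    constructor
    · intro x y
      unfold dbl
      rw [abs_of_nonneg (by positivity)]
      exact_mod_cast Nat.mul_le_mul_left 2 (hh x y)
    · intro x y
      unfold dbl
      rw [abs_of_nonneg (by positivity)]
      exact_mod_cast Nat.mul_le_mul_left 2 (hv x y)
  set M := scale n N C B with hMdef
  have hM1 : 3 * ((2 * B + 2 : ℕ) : ℤ) + 8 * ((N * (2 * C) : ℕ) : ℤ) ≤ ((M : ℕ) : ℤ) := by
    rw [hMdef]; unfold scale; push_cast
    have : (0 : ℤ) ≤ 8 * (n : ℤ) * ((N : ℤ) * C) ^ 2 := by positivity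
    linarith
  have hunit : ∀ σ : Equiv.Perm (Fin n), UnitTour p σ →
      tcost (dbl h) (dbl v) ((2 * B + 2 : ℕ) : ℤ) p σ
        = 2 * (∑ i, ncost h v (p (σ i)) (p (σ (finRotate n i))) : ℕ) := by
    intro σ hσ
    unfold tcost
    push_cast
    rw [Finset.mul_sum]
    exact Finset.sum_congr rfl fun i _ => ucost_dbl h v _ (hσ i)
  have h1 := tcost_le_tlen hB hn p hp hN (by positivity) hM1 σ
  have h2 : tcost (dbl h) (dbl v) ((2 * B + 2 : ℕ) : ℤ) p σ < 2 * B + 2 := by
    have h3 : (n : ℝ) * ((M : ℕ) : ℤ) + tcost (dbl h) (dbl v) ((2 * B + 2 : ℕ) : ℤ) p σ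
        < (n : ℝ) * M + (2 * B + 2) := by
      refine lt_of_le_of_lt h1 (lt_of_lt_of_eq hσ ?_)
      push_cast; ring
    have h4 : ((tcost (dbl h) (dbl v) ((2 * B + 2 : ℕ) : ℤ) p σ : ℤ) : ℝ)
        < ((2 * B + 2 : ℤ) : ℝ) := by
      push_cast at h3 ⊢
      linarith
    exact_mod_cast h4
  have hu : UnitTour p σ := by
    intro i
    by_contra hni
    have h3 : ((2 * B + 2 : ℕ) : ℤ) ≤ tcost (dbl h) (dbl v) ((2 * B + 2 : ℕ) : ℤ) p σ := by
      unfold tcost
      refine le_trans (le_of_eq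
        (ucost_not (h := dbl h) (v := dbl v) (K := ((2 * B + 2 : ℕ) : ℤ)) hni).symm) ?_
      exact Finset.single_le_sum (f := fun i => ucost (dbl h) (dbl v) ((2 * B + 2 : ℕ) : ℤ)
        (p (σ i)) (p (σ (finRotate n i))))
        (fun j _ => ucost_dbl_nonneg h v (by positivity) _ _) (Finset.mem_univ i)
    push_cast at h3 h2
    linarith
  refine ⟨hu, ?_⟩
  rw [hunit σ hu] at h2
  omega

theorem st_GAP : ST_GAP := by
  intro h v N W L hB hc hL hmem hn hW hno σ
  by_contra hcon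
  rw [not_le] at hcon
  have hp : Function.Injective L.get := List.nodup_iff_injective_get.mp hL
  have hN : ∀ i, (L.get i).1 ≤ 2 * N ∧ (L.get i).2 ≤ 2 * N := by
    intro i
    have h1 := vert_box hB ((hmem _).mp (List.get_mem L i))
    omega
  obtain ⟨hu, hle⟩ := gap_main (C := 4) (fun x y => by rcases hc.1 x y with g | g | g <;> omega)
    (fun x y => by rcases hc.2 x y with g | g | g <;> omega) (by omega) L.get hp hN σ hcon
  have hfd : ∀ σ : Equiv.Perm (Fin L.length), ∑ i, fdeg h v (L.get (σ i))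
      = (L.map (fdeg h v)).sum := by
    intro σ
    rw [Equiv.sum_comp σ fun i => fdeg h v (L.get i)]
    rw [← List.sum_ofFn]
    congr 1
    apply List.ext_get
    · simp
    · intro k h1 h2
      simp
  apply hno
  refine ⟨List.ofFn fun i => L.get (σ i), ?_⟩
  apply tour_of_cyc hB hc hn (fun i => L.get (σ i)) (hp.comp σ.injective) hu
  · intro a
    rw [← hmem, List.mem_iff_get]
    constructor
    · rintro ⟨i, rfl⟩; exact ⟨σ i, rfl⟩
    · rintro ⟨i, rfl⟩; exact ⟨σ.symm i, by simp⟩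
  · have h1 := (cyc_lower hB hc hn (fun i => L.get (σ i)) (hp.comp σ.injective) hu).1
    have h3 : ∑ i, fdeg h v ((fun i => L.get (σ i)) i) = _ := hfd σ
    rw [h3] at h1 ⊢
    change cyc h v (fun i => L.get (σ i)) ≤ W at hle
    omega

end Pool.Agent.Helper96.SE
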