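import Pool.Agent.Helper8.SE.Sheet

/-! Row NU of the sheet SE. -/

open scoped ContDiff
open Set Filter Topology

namespace Pool.Agent.Helper31.SE

open Pool.Agent.Helper8.SE

theorem stNU.{u} : ST_PHI.{u} → ST_NU.{u} := by
  intro hphi X _ _ _ _ δ hδ
  obtain ⟨φ, h0, h1, h2⟩ := hphi X δ hδ
  choose F hF1 hF2 hF3 using h2
  set ν : X → ℝ := fun x => F x x - φ (F x) with hν
  have lo : ∀ x y, F x (y - x) ≤ ν y - ν x := by
    intro x y
    have h := hF2 y (F x) (hF1 x)
    simp only [hν]
    rw [map_sub]
    linarith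
  have up : ∀ x y, ν y - ν x ≤ F y (y - x) := by
    intro x y
    have h := lo y x
    have e : F y (x - y) = -(F y (y - x)) := by
      rw [← map_neg, neg_sub]
    rw [e] at h
    linarith
  have bd : ∀ x y, |F x y| ≤ ‖y‖ := by
    intro x y
    have h := (F x).le_opNorm y
    rw [Real.norm_eq_abs] at h
    calc |F x y| ≤ ‖F x‖ * ‖y‖ := h
      _ ≤ 1 * ‖y‖ := by gcongr; exact hF1 x
      _ = ‖y‖ := one_mul _
  have lip : ∀ x y, |ν x - ν y| ≤ 1 * ‖x - y‖ := by
    intro x y
    rw [one_mul, abs_le]
    have a1 := lo y x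
    have a2 := up y x
    have b1 := abs_le.1 (bd y (x - y))
    have b2 := abs_le.1 (bd x (x - y))
    constructor
    · linarith [b1.1]
    · linarith [b2.2]
  have cont : Continuous F := by
    rw [continuous_iff_continuousAt]
    intro x
    rw [ContinuousAt, Metric.tendsto_nhds]
    intro ε hε
    obtain ⟨η, hη, hh⟩ := hF3 x (ε / 2) (half_pos hε)
    have hb : ∀ᶠ y in 𝓝 x, dist y x < η / 2 := Metric.ball_mem_nhds x (half_pos hη)
    filter_upwards [hb] with y hy
    rw [dist_eq_norm] at hy
    have k := hh (F y) (hF1 y) (by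
      have a1 := lip x y
      rw [one_mul, norm_sub_rev] at a1
      have a2 := (abs_le.1 a1)
      have b := abs_le.1 (bd y (y - x))
      have e : F y x = F y y - F y (y - x) := by rw [map_sub]; ring
      have e1 : ν y = F y y - φ (F y) := rfl
      have e2 : ν x = F x x - φ (F x) := rfl
      rw [e]
      linarith [a2.2, b.2])
    rw [dist_eq_norm]
    linarith
  have der : ∀ x, HasFDerivAt ν (F x) x := by
    intro x
    rw [hasFDerivAt_iff_isLittleO, Asymptotics.isLittleO_iff]
    intro c hc
    have hb : ∀ᶠ y in 𝓝 x, dist (F y) (F x) < c :=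
      (Metric.tendsto_nhds.1 (cont.continuousAt (x := x))) c hc
    filter_upwards [hb] with y hy
    rw [dist_eq_norm] at hy
    have a1 := lo x y
    have a2 := up x y
    have a3 := (F y - F x).le_opNorm (y - x)
    have a4 : (F y - F x) (y - x) = F y (y - x) - F x (y - x) := rfl
    rw [a4, Real.norm_eq_abs] at a3
    have a5 : ‖F y - F x‖ * ‖y - x‖ ≤ c * ‖y - x‖ := by gcongr
    rw [Real.norm_eq_abs, abs_le]
    have a6 := (abs_le.1 a3).2
    have a7 : 0 ≤ c * ‖y - x‖ := by positivity
    constructor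
    · linarith
    · linarith
  refine ⟨ν, ?_, lip, ?_⟩
  · rw [contDiff_one_iff_fderiv]
    refine ⟨fun x => (der x).differentiableAt, ?_⟩
    have e : fderiv ℝ ν = F := by
      funext x
      exact (der x).fderiv
    rw [e]
    exact cont
  · intro x
    have b := abs_le.1 (bd x x)
    obtain ⟨g, hg1, hg2⟩ := exists_dual_vector'' ℝ x
    have k1 := hF2 x g hg1
    have k2 := h1 g hg1
    have k3 := h0 (F x)
    have e2 : ν x = F x x - φ (F x) := rfl
    have hg3 : g x = ‖x‖ := by simpa using hg2
    rw [abs_le, e2]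
    rw [hg3] at k1
    constructor
    · linarith
    · linarith [b.2]

end Pool.Agent.Helper31.SE
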